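import Mathlib
import Pool.Agent.Q127.KI.Fin
import Pool.Agent.Q44.KI.Ent

/-!
# Katok's conjecture on intermediate entropies is false in every dimension at least three

Every compact `C^∞` manifold of dimension `d ≥ 3` has a `C^∞` diffeomorphism `f` of positive topological entropy which
has, apart from the measures on its fixed points, exactly one ergodic measure. So the metric entropies of the ergodic
measures take at most two values (one of them is `0`), and almost all numbers between `0` and the topological entropy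
are missing.

Proof. A horseshoe which is the shift on `{0,1}^ℤ` lies in a cube `[-1,1]^d` (generalised Hénon map: the two first
coordinates of the point of `w` are `c X(w)` and `c X(σ⁻¹ w)` with `X(w) = ∑ θ^|n| w_n`). Let `K` be the part of the
horseshoe which belongs to a uniquely ergodic subshift of positive entropy (the blocks of level `k + 1` are the
concatenations of all the blocks of level `k`, each once, in any order). Compose with a push `v ↦ v + φ(v) e_3`, where
`φ ≥ 0` is `C^∞` and vanishes exactly on `K` and outside the open cube. Then the third coordinate increases along all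
orbits in the open cube outside `K`, so every invariant measure lives on `K` and the fixed points outside the cube.
-/

set_option autoImplicit false

namespace Pool.Agent.Results.MP_a24f0f_an.KatokConjectureFails

open MeasureTheory Filter Topology Dynamics
open scoped Manifold ContDiff

/-- The entropy `- ∑ μ(P_a) log μ(P_a)` of the partition into the sets `P_a = {x | p x = a}`. -/
noncomputable def partEntropy {M : Type} [MeasurableSpace M] (μ : Measure M) {α : Type} [Fintype α] (p : M → α) : ℝ :=
  ∑ a, Real.negMulLog (μ.real (p ⁻¹' {a}))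

/-- The function whose level sets are the members of the common refinement of the partitions
`P, f⁻¹ P, ..., f^(-(n-1)) P`, where `P` is the partition into the level sets of `p`. -/
def names {M : Type} (f : M → M) {m : ℕ} (p : M → Fin m) (n : ℕ) (x : M) : Fin n → Fin m := fun i => p (f^[i] x)

/-- The Kolmogorov-Sinai entropy of `f` with respect to the invariant probability measure `μ`: the supremum over all
finite measurable partitions `P` of the limit of `(1/n) H(P ∨ f⁻¹ P ∨ ... ∨ f^(-(n-1)) P)`. -/
noncomputable def ksEntropy {M : Type} [MeasurableSpace M] (f : M → M) (μ : Measure M) : EReal :=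
  ⨆ (m : ℕ) (p : M → Fin m) (_ : Measurable p),
    limsup (fun n : ℕ => ((partEntropy μ (names f p n) / n : ℝ) : EReal)) atTop

/-- The conclusion of Katok's conjecture for `f`: every number `0 ≤ β < h_top(f)` is the entropy of an ergodic
invariant probability measure. -/
def IntermediateEntropies {M : Type} [MetricSpace M] [MeasurableSpace M] (f : M → M) : Prop :=
  ∀ β : ℝ, 0 ≤ β → (β : EReal) < coverEntropy f Set.univ →
    ∃ μ : Measure M, IsProbabilityMeasure μ ∧ Ergodic f μ ∧ ksEntropy f μ = β

/-- `f` has positive topological entropy; every ergodic invariant probability measure of `f` is carried by the fixed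
points of `f` or by their complement; the first ones have entropy `0`, and there is at most one of the second kind. -/
def OneMeasure {M : Type} [MetricSpace M] [MeasurableSpace M] (f : M → M) : Prop :=
  0 < coverEntropy f Set.univ ∧
    (∀ μ : Measure M, IsProbabilityMeasure μ → Ergodic f μ → (∀ᵐ x ∂μ, f x = x) ∨ ∀ᵐ x ∂μ, f x ≠ x) ∧
    (∀ μ : Measure M, IsProbabilityMeasure μ → (∀ᵐ x ∂μ, f x = x) → ksEntropy f μ = 0) ∧
    ∀ μ ν : Measure M, IsProbabilityMeasure μ → IsProbabilityMeasure ν → MeasurePreserving f μ μ →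
      MeasurePreserving f ν ν → (∀ᵐ x ∂μ, f x ≠ x) → (∀ᵐ x ∂ν, f x ≠ x) → μ = ν

/-- The entropies of the ergodic invariant probability measures of `f` are `0` or one further number. -/
def TwoEntropies {M : Type} [MetricSpace M] [MeasurableSpace M] (f : M → M) : Prop :=
  ∃ h : EReal, ∀ μ : Measure M, IsProbabilityMeasure μ → Ergodic f μ → ksEntropy f μ = 0 ∨ ksEntropy f μ = h

/-- `f` is a `C^∞` diffeomorphism of the manifold `M` of dimension `d`. -/
def IsDiffeo (d : ℕ) {M : Type} [MetricSpace M] [ChartedSpace (EuclideanSpace ℝ (Fin d)) M] (f : M → M) : Prop :=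
  ∃ g : Diffeomorph (𝓡 d) (𝓡 d) M M ∞, ⇑g = f

/-- The manifold `M` of dimension `d` has a `C^∞` diffeomorphism `f`, the identity outside `U`, with the properties
`OneMeasure` and `TwoEntropies`, which violates Katok's conjecture. -/
def FailsOn (d : ℕ) (M : Type) [MetricSpace M] [ChartedSpace (EuclideanSpace ℝ (Fin d)) M] [MeasurableSpace M]
    (U : Set M) : Prop :=
  ∃ f : M → M, IsDiffeo d f ∧ (∀ x, x ∉ U → f x = x) ∧ OneMeasure f ∧ TwoEntropies f ∧ ¬ IntermediateEntropies f

/-- Katok's conjecture for the `C^∞` diffeomorphisms of all compact manifolds. -/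
def KatokConjecture : Prop :=
  ∀ (d : ℕ) (M : Type) [MetricSpace M] [CompactSpace M] [ChartedSpace (EuclideanSpace ℝ (Fin d)) M]
    [IsManifold (𝓡 d) ∞ M] [MeasurableSpace M] [BorelSpace M] (f : M → M), IsDiffeo d f → IntermediateEntropies f

/-- a function with `OneMeasure` violates the conjecture -/
lemma not_intermediate {M : Type} [MetricSpace M] [MeasurableSpace M] {f : M → M} (h : OneMeasure f) :
    TwoEntropies f ∧ ¬ IntermediateEntropies f := by
  classical
  obtain ⟨a1, a2, a3, a4⟩ := h
  obtain ⟨h1, hh1⟩ : ∃ h1 : EReal, ∀ μ : Measure M, IsProbabilityMeasure μ → Ergodic f μ →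
      ksEntropy f μ = 0 ∨ ksEntropy f μ = h1 := by
    by_cases hex : ∃ μ : Measure M, IsProbabilityMeasure μ ∧ MeasurePreserving f μ μ ∧ ∀ᵐ x ∂μ, f x ≠ x
    · obtain ⟨μ0, b1, b2, b3⟩ := hex
      refine ⟨ksEntropy f μ0, fun μ hμ hf => ?_⟩
      rcases a2 μ hμ hf with h | h
      · exact Or.inl (a3 μ hμ h)
      · right
        rw [a4 μ μ0 hμ b1 hf.toMeasurePreserving b2 h b3]
    · refine ⟨0, fun μ hμ hf => ?_⟩
      rcases a2 μ hμ hf with h | h
      · exact Or.inl (a3 μ hμ h)
      · exact absurd ⟨μ, hμ, hf.toMeasurePreserving, h⟩ hex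
  refine ⟨⟨h1, hh1⟩, fun hI => ?_⟩
  obtain ⟨b, hb0, hb1⟩ := EReal.lt_iff_exists_real_btwn.1 a1
  have hb0' : 0 < b := by exact_mod_cast hb0
  have hb2 : (((b / 2 : ℝ)) : EReal) < coverEntropy f Set.univ := by
    refine lt_trans ?_ hb1
    exact_mod_cast (by linarith : b / 2 < b)
  obtain ⟨μ, c1, c2, c3⟩ := hI b hb0'.le hb1
  obtain ⟨ν, d1, d2, d3⟩ := hI (b / 2) (by linarith) hb2
  have e1 : (b : EReal) = h1 := by
    rcases hh1 μ c1 c2 with h | h
    · rw [c3] at h
      have : b = 0 := by exact_mod_cast h
      linarith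
    · rw [← c3]; exact h
  have e2 : ((b / 2 : ℝ) : EReal) = h1 := by
    rcases hh1 ν d1 d2 with h | h
    · rw [d3] at h
      have : b / 2 = 0 := by exact_mod_cast h
      linarith
    · rw [← d3]; exact h
  have : b = b / 2 := by
    have := e1.trans e2.symm
    exact_mod_cast this
  linarith

theorem result :
    (∀ d : ℕ, 3 ≤ d → ∀ (M : Type) [MetricSpace M] [CompactSpace M] [ChartedSpace (EuclideanSpace ℝ (Fin d)) M]
      [IsManifold (𝓡 d) ∞ M] [MeasurableSpace M] [BorelSpace M] (U : Set M), IsOpen U → U.Nonempty → FailsOn d M U) ∧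
    ¬ KatokConjecture := by
  have main : ∀ d : ℕ, 3 ≤ d → ∀ (M : Type) [MetricSpace M] [CompactSpace M]
      [ChartedSpace (EuclideanSpace ℝ (Fin d)) M]
      [IsManifold (𝓡 d) ∞ M] [MeasurableSpace M] [BorelSpace M] (U : Set M), IsOpen U → U.Nonempty →
      FailsOn d M U := by
    intro d hd M _ _ _ _ _ _ U hU hUn
    obtain ⟨f, h1, h2, h3, h4, h5⟩ := Pool.Agent.Q127.KI.main
      (Pool.Agent.Q44.KI.ent Pool.Agent.Q127.KI.grw Q123.KI_INJ.inj
        (Pool.Agent.Q39.KI_APP.app Pool.Agent.Q121.KI_SUB.sub) Q123.KI_CLS.cls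
        (Pool.Agent.Q127.KI.nem (Q182.KI_DEC.dec Pool.Agent.Q121.KI_SUB.sub) Q123.KI_CLS.cls)
        Pool.Agent.Q71.KI_INV.inv) hd hU hUn
    have h : OneMeasure f := ⟨h2, h3, h4, h5⟩
    obtain ⟨hb, hn⟩ := not_intermediate h
    exact ⟨f, ⟨f, rfl⟩, h1, h, hb, hn⟩
  refine ⟨main, fun hK => ?_⟩
  have : Nonempty (Metric.sphere (0 : EuclideanSpace ℝ (Fin 4)) 1) :=
    (NormedSpace.sphere_nonempty.2 zero_le_one).to_subtype
  obtain ⟨f, hf, -, -, -, h⟩ := main 3 le_rfl (Metric.sphere (0 : EuclideanSpace ℝ (Fin 4)) 1) Set.univ isOpen_univ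
    Set.univ_nonempty
  exact h (hK 3 _ f hf)

end Pool.Agent.Results.MP_a24f0f_an.KatokConjectureFails
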